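import Mathlib
import Pool.Agent.H.MP_daa8b9_co.UF

set_option autoImplicit false

namespace Pool.Agent.Results.MP_daa8b9_co.Penrose

open Pool.Agent.H.MP_daa8b9_co

def link {m : ℕ} (σ : Equiv.Perm (Fin m × Bool)) (A : Finset (Fin m))
    (x y : Fin m × Bool) : Prop :=
  ∃ e : Fin m,
    if e ∈ A then (x = (e, false) ∧ y = (e, true)) ∨ (σ x = (e, false) ∧ σ y = (e, true))
    else (x = (e, false) ∧ σ y = (e, true)) ∨ (x = (e, true) ∧ σ y = (e, false))

noncomputable def penrose {m : ℕ} (σ : Equiv.Perm (Fin m × Bool)) (t : ℤ) : ℤ :=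
  ∑ A : Finset (Fin m), (-1) ^ A.card * t ^ Nat.card (Quot (link σ A))

def code (d : Fin 21 × Bool) : ℕ := 2 * d.1.val + d.2.toNat

def dec (n : ℕ) : Fin 21 × Bool := (Fin.ofNat 21 (n / 2), n % 2 == 1)

def sL : List ℕ := [3, 8, 10, 5, 15, 0, 22, 1, 7, 13, 19, 6, 4, 16, 20, 12, 9, 32, 24, 2, 26,
  18, 11, 28, 21, 39, 14, 31, 36, 17, 25, 35, 29, 34, 41, 27, 23, 40, 37, 30, 38, 33]

def iL : List ℕ := [5, 7, 19, 0, 12, 3, 11, 8, 1, 16, 2, 22, 15, 9, 26, 4, 13, 29, 21, 10, 14,
  24, 6, 36, 18, 30, 20, 35, 23, 32, 39, 27, 17, 41, 33, 31, 28, 38, 40, 25, 37, 34]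

def xL : List ℕ := [41, 36, 34, 39, 30, 40, 22, 38, 37, 32, 26, 35, 33, 28, 24, 31, 29, 12, 20,
  27, 18, 25, 23, 16, 21, 4, 19, 14, 7, 17, 15, 9, 13, 10, 0, 11, 8, 1, 5, 6, 2, 3]

def s0 : Equiv.Perm (Fin 21 × Bool) where
  toFun d := dec (sL.getD (code d) 0)
  invFun d := dec (iL.getD (code d) 0)
  left_inv := by decide +kernel
  right_inv := by decide +kernel

def idx (d : Fin 21 × Bool) : ℕ := xL.getD (code d) 0

lemma rep0 : Rep idx (fun _ _ => False) (List.range 42) := by
  intro x y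
  have h : ∀ x y : Fin 21 × Bool,
      (List.range 42).getD (idx x) 0 = (List.range 42).getD (idx y) 0 → x = y := by
    decide +kernel
  constructor
  · intro e
    rw [h x y e]
    exact Relation.EqvGen.refl _
  · intro e
    induction e with
    | rel x y hr => exact hr.elim
    | refl x => rfl
    | symm x y _ ih => exact ih.symm
    | trans x y z _ _ ih1 ih2 => exact ih1.trans ih2

lemma card0 : Nat.card (Quot (fun _ _ : Fin 21 × Bool => False)) = 42 := by
  rw [card_quot (f := fun x => (List.range 42).getD (idx x) 0) rep0,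
    Set.ncard_range_of_injective]
  · simp
  · have h : ∀ x y : Fin 21 × Bool,
        (List.range 42).getD (idx x) 0 = (List.range 42).getD (idx y) 0 → x = y := by
      decide +kernel
    exact h

def ds : List (Fin 21 × Bool) := (List.range 42).map dec

lemma mem_ds : ∀ d, d ∈ ds := by decide +kernel

lemma card_fun (r : Fin 21 × Bool → Fin 21 × Bool → Prop) (ps : List ((Fin 21 × Bool) × (Fin 21 × Bool)))
    (h : ∀ x y, r x y ↔ (x, y) ∈ ps) (k : ℕ)
    (hk : merges (List.range 42) (ps.map fun p => (idx p.1, idx p.2)) = k) :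
    Nat.card (Quot r) + k = 42 := by
  have := card_list ps rep0
  rw [card0, hk] at this
  rw [← this]
  congr 3
  funext x y
  simp [h]

lemma conn : Nat.card (Quot fun x y : Fin 21 × Bool => y = s0 x ∨ y = (x.1, !x.2)) = 1 := by
  have := card_fun (fun x y : Fin 21 × Bool => y = s0 x ∨ y = (x.1, !x.2))
    (ds.map (fun x => (x, s0 x)) ++ ds.map (fun x => (x, (x.1, !x.2)))) (by
      intro x y
      simp only [List.mem_append, List.mem_map, mem_ds, true_and, Prod.mk.injEq, exists_eq_left,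
        eq_comm (a := y)]) 41 (by decide +kernel)
  omega

lemma verts : Nat.card (Quot fun x y : Fin 21 × Bool => y = s0 x) = 14 := by
  have := card_fun (fun x y : Fin 21 × Bool => y = s0 x)
    (ds.map (fun x => (x, s0 x))) (by
      intro x y
      simp only [List.mem_map, mem_ds, true_and, Prod.mk.injEq, exists_eq_left,
        eq_comm (a := y)]) 28 (by decide +kernel)
  omega

lemma faces : Nat.card (Quot fun x y : Fin 21 × Bool => s0 y = (x.1, !x.2)) = 9 := by
  have := card_fun (fun x y : Fin 21 × Bool => s0 y = (x.1, !x.2))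
    (ds.map (fun x => (x, s0.symm (x.1, !x.2)))) (by
      intro x y
      simp only [List.mem_map, mem_ds, true_and, Prod.mk.injEq, exists_eq_left,
        Equiv.symm_apply_eq, eq_comm (a := s0 y)]) 33 (by decide +kernel)
  omega

def QL : List (ℕ × (Q4 × Q4)) :=
  [(42, (((41, 38), (36, 40)), ((41, 36), (40, 38)))),
   (41, (((34, 41), (39, 27)), ((34, 39), (27, 41)))),
   (39, (((30, 39), (40, 33)), ((30, 40), (33, 39)))),
   (38, (((22, 37), (38, 35)), ((22, 38), (35, 37)))),
   (36, (((37, 29), (32, 36)), ((37, 32), (36, 29)))),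
   (34, (((26, 23), (35, 34)), ((26, 35), (34, 23)))),
   (32, (((33, 32), (28, 31)), ((33, 28), (31, 32)))),
   (30, (((24, 30), (31, 19)), ((24, 31), (19, 30)))),
   (28, (((29, 17), (12, 28)), ((29, 12), (28, 17)))),
   (26, (((20, 26), (27, 25)), ((20, 27), (25, 26)))),
   (24, (((18, 21), (25, 24)), ((18, 25), (24, 21)))),
   (22, (((23, 8), (16, 22)), ((23, 16), (22, 8)))),
   (20, (((21, 15), (4, 20)), ((21, 4), (20, 15)))),
   (18, (((19, 11), (14, 18)), ((19, 14), (18, 11)))),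
   (16, (((7, 13), (17, 16)), ((7, 17), (16, 13)))),
   (14, (((15, 14), (9, 6)), ((15, 9), (6, 14)))),
   (12, (((13, 3), (10, 12)), ((13, 10), (12, 3)))),
   (9, (((0, 9), (11, 10)), ((0, 11), (10, 9)))),
   (7, (((8, 5), (1, 7)), ((8, 1), (7, 5)))),
   (4, (((5, 4), (6, 2)), ((5, 6), (2, 4)))),
   (0, (((2, 0), (3, 1)), ((2, 3), (1, 0))))]

def W (e : Fin 21) : ((Fin 21 × Bool) × (Fin 21 × Bool)) × ((Fin 21 × Bool) × (Fin 21 × Bool)) :=
  (((e, false), s0.symm (e, true)), ((e, true), s0.symm (e, false)))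

def C (e : Fin 21) : ((Fin 21 × Bool) × (Fin 21 × Bool)) × ((Fin 21 × Bool) × (Fin 21 × Bool)) :=
  (((e, false), (e, true)), (s0.symm (e, false), s0.symm (e, true)))

lemma run_val : run QL (.node .nil 0 (List.range 42) 1 .nil) = -78966 := by decide +kernel

lemma pen : penrose s0 (-1) = -78966 := by
  have h := state_sum W C (List.finRange 21) (List.nodup_finRange 21) rep0
  have hQ : ((List.finRange 21).map fun e => (qi idx (W e), qi idx (C e))) = QL.map Prod.snd := by
    decide +kernel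
  have hr := run_val
  rw [run_eq QL (by decide +kernel)] at hr
  simp only [wt, one_mul, add_zero, zero_add] at hr
  rw [card0, hQ, hr, List.toFinset_finRange, Finset.powerset_univ] at h
  rw [penrose]
  refine Eq.trans (Finset.sum_congr rfl fun A _ => ?_) (h.trans (by norm_num))
  have e : link s0 A = fun x y => False ∨ ∃ e ∈ List.finRange 21,
      if e ∈ A then pr (C e) x y else pr (W e) x y := by
    funext x y
    simp only [link, List.mem_finRange, true_and, false_or, pr, W, C, Equiv.eq_symm_apply]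
  rw [e]

def nbL : List (List ℕ) := [[], [0], [0, 1], [0], [0, 3], [1, 3], [2, 4], [2, 6], [4, 6], [1, 5],
  [7, 9], [3, 5], [9, 10], [7, 10], [8, 11], [12, 13], [8, 14], [13, 15, 16], [11, 14],
  [12, 15, 18], [16, 17, 18, 19]]

def nb (j : ℕ) : List ℕ := nbL.getD j []

lemma nb_lt : ∀ j, ∀ i ∈ nb j, i < j := by
  intro j
  rcases Nat.lt_or_ge j 21 with h | h
  · revert j
    decide +kernel
  · have : nb j = [] := List.getD_eq_default _ _ h
    simp [this]

lemma cols : Nat.card {c : Fin 21 → Fin 3 // ∀ d, c (s0 d).1 ≠ c d.1} = 54 := by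
  have h := cnt_eq nb nb_lt 21 []
  have hv : cnt nb 21 [] = 54 := by decide +kernel
  rw [Nat.card_eq_fintype_card, Fintype.card_subtype, Finset.card_filter, ← hv, h]
  refine Finset.sum_congr rfl fun f _ => if_congr ?_ rfl rfl
  simp only [List.length_nil, zero_add, List.nil_append]
  have h1 : ∀ d : Fin 21 × Bool, d.1.val ∈ nb (s0 d).1 ∨ (s0 d).1.val ∈ nb d.1 := by
    decide +kernel
  have h2 : ∀ j : Fin 21, ∀ i ∈ nb j, ∃ d : Fin 21 × Bool,
      (d.1 = j ∧ (s0 d).1.val = i) ∨ ((s0 d).1 = j ∧ d.1.val = i) := by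
    decide +kernel
  have h3 : ∀ k : Fin 21, (List.ofFn f)[k.val]? = some (f k) := by
    intro k
    rw [List.getElem?_ofFn, dif_pos k.2]
  constructor
  · intro H j i hi
    obtain ⟨d, ⟨rfl, rfl⟩ | ⟨rfl, rfl⟩⟩ := h2 j i hi
    · rw [h3]
      exact fun e => H d (Option.some.inj e)
    · rw [h3]
      exact fun e => H d (Option.some.inj e).symm
  · intro H d e
    rcases h1 d with h | h
    · exact H _ _ h (by rw [h3, e])
    · exact H _ _ h (by rw [h3, e])

theorem result :
    ∃ (m : ℕ) (σ : Equiv.Perm (Fin m × Bool)),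
      (∀ d, σ d ≠ d ∧ σ (σ (σ d)) = d) ∧
      (∀ d, (σ d).1 ≠ d.1) ∧
      Nat.card (Quot fun x y : Fin m × Bool => y = σ x ∨ y = (x.1, !x.2)) = 1 ∧
      Nat.card (Quot fun x y : Fin m × Bool => y = σ x) +
        Nat.card (Quot fun x y : Fin m × Bool => σ y = (x.1, !x.2)) = m + 2 ∧
      ¬ ((Nat.card {c : Fin m → Fin 3 // ∀ d, c (σ d).1 ≠ c d.1} : ℤ) ∣ penrose σ (-1)) := by
  refine ⟨21, s0, by decide +kernel, by decide +kernel, conn, by rw [verts, faces], ?_⟩
  rw [cols, pen]
  norm_num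

end Pool.Agent.Results.MP_daa8b9_co.Penrose
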